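import Pool.Agent.Lib.Fit_h28.Class
import Pool.Agent.Lib.Fit_h28.Transf

set_option autoImplicit false

namespace Pool.Agent.Iso59.Dichotomy

open Subgroup Fit28

/-- Let `X` be a non-empty Fitting class of finite soluble groups and `G` a finite group. Then
`G` has an `X`-injector, or there are primes `p < q` with `C_p` and `C_q` in `X`, such that the
Sylow `p`-subgroups and the Sylow `q`-subgroups of `G` are not abelian, and a nonabelian simple
section `S` of `G` with elements `x`, `y` of orders `p`, `q`, such that `x` commutes with no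
conjugate of `x` but itself, `y` commutes with no conjugate of `y` but itself, and every conjugate
of `x` generates `S` together with every conjugate of `y`. -/
theorem dichotomy :
    ∀ X : ∀ (G : Type) [Group G], Prop,
      (∀ (G H : Type) [Group G] [Group H] [Finite G], (G ≃* H) → X G → X H) →
      (∀ (G : Type) [Group G] [Finite G], X G → ∀ N : Subgroup G, N.Normal → X ↥N) →
      (∀ (G : Type) [Group G] [Finite G] (N M : Subgroup G),
          N.Normal → M.Normal → X ↥N → X ↥M → X ↥(N ⊔ M)) →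
      (∀ (G : Type) [Group G] [Finite G], X G → Group.IsSolvable G) →
      (∃ (G : Type) (_ : Group G), Finite G ∧ X G) →
      ∀ (G : Type) [Group G] [Finite G],
        (∃ V : Subgroup G, ∀ N : Subgroup G,
          (∃ (n : ℕ) (f : ℕ → Subgroup G), f 0 = N ∧ f n = ⊤ ∧
              ∀ i < n, f i ≤ f (i + 1) ∧ ((f i).subgroupOf (f (i + 1))).Normal) →
          X ↥(V ⊓ N) ∧ ∀ K : Subgroup G, V ⊓ N ≤ K → K ≤ N → X ↥K → K = V ⊓ N) ∨
        ∃ p q : ℕ, p.Prime ∧ q.Prime ∧ p < q ∧
          X (Multiplicative (ZMod p)) ∧ X (Multiplicative (ZMod q)) ∧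
          (∀ P : Sylow p G, ∃ a ∈ P, ∃ b ∈ P, a * b ≠ b * a) ∧
          (∀ Q : Sylow q G, ∃ a ∈ Q, ∃ b ∈ Q, a * b ≠ b * a) ∧
          ∃ (S : Type) (_ : Group S) (K : Subgroup G) (f : ↥K →* S),
            Function.Surjective f ∧ IsSimpleGroup S ∧ (∃ a b : S, a * b ≠ b * a) ∧
            ∃ x y : S, orderOf x = p ∧ orderOf y = q ∧
              (∀ g : S, Commute x (g * x * g⁻¹) → g * x * g⁻¹ = x) ∧
              (∀ g : S, Commute y (g * y * g⁻¹) → g * y * g⁻¹ = y) ∧
              (∀ g h : S, Subgroup.closure {g * x * g⁻¹, h * y * h⁻¹} = ⊤) := by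
  intro X h1 h2 h3 h4 h5 G _ _
  have hX : SolFit X := ⟨h1, h2, h3, h4, h5⟩
  rw [or_iff_not_imp_right]
  intro hno
  -- the section, for primes in any order
  have key : ∀ p q : ℕ, p.Prime → q.Prime → p < q → HasIdx (fun H : Subgroup G => X ↥H) p →
      HasIdx (fun H : Subgroup G => X ↥H) q → ¬ BadSec G p q := by
    intro p q hp hq hlt hip hiq hbad
    have hfp : Fact p.Prime := ⟨hp⟩
    have hfq : Fact q.Prime := ⟨hq⟩
    apply hno
    obtain ⟨S, iS, hsec, hsimple, hne, x, y, hx, hy, hix, hiy, hgen⟩ := hbad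
    have hfin : Finite S := hsec.finite
    have hx1 : x ≠ 1 := fun h => by
      rw [h, orderOf_one] at hx
      exact hp.one_lt.ne hx
    have hy1 : y ≠ 1 := fun h => by
      rw [h, orderOf_one] at hy
      exact hq.one_lt.ne hy
    refine ⟨p, q, hp, hq, hlt, hX.zmod hp hip, hX.zmod hq hiq, ?_, ?_, ?_⟩
    · intro P
      exact sylow_nonabelian_of_section hsec hx1
        (fun P hP => mem_commutator_of_isol hne hx hix P hP) (isPGroup_zpowers hx) P
    · intro Q
      exact sylow_nonabelian_of_section hsec hy1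
        (fun P hP => mem_commutator_of_isol hne hy hiy P hP) (isPGroup_zpowers hy) Q
    · obtain ⟨K, f, hf⟩ := hsec
      exact ⟨S, iS, K, f, hf, hsimple, hne, x, y, hx, hy, hix, hiy, hgen⟩
  obtain ⟨V, hV⟩ := exists_inj (hX.fam G) (by
    intro p q hp hq hpq hip hiq hbad
    rcases lt_or_gt_of_ne hpq with hlt | hlt
    · exact key p q hp hq hlt hip hiq hbad
    · refine key q p hq hp hlt hiq hip ?_
      obtain ⟨S, iS, hsec, hsimple, hne, x, y, hx, hy, hix, hiy, hgen⟩ := hbad
      exact ⟨S, iS, hsec, hsimple, hne, y, x, hy, hx, hiy, hix,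
        fun g h => by rw [Set.pair_comm]; exact hgen h g⟩)
  exact ⟨V, hV⟩

end Pool.Agent.Iso59.Dichotomy
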