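import Mathlib

set_option autoImplicit false

/-! # Isolated elements of prime power order: counting elements of order prime to `p`

`G` finite, `a, m` coprime with `card G ∣ a * m`.  `Pe a u`: `u ^ a = 1`; the elements of order dividing `m`
are the p'-elements. -/

namespace Pool.Agent.Iso59

open Subgroup Finset

open scoped Classical in
/-- the number of elements `w` of `K` with `w ^ m = 1` -/
noncomputable def cnt {G : Type} [Group G] (m : ℕ) (K : Subgroup G) : ℕ :=
  Nat.card {w : G // w ∈ K ∧ w ^ m = 1}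

lemma modEq_of_eq {a b n : ℕ} (h : a = b) : a ≡ b [MOD n] := by rw [h]

lemma mem_cz {G : Type} [Group G] {u w : G} : w ∈ centralizer ({u} : Set G) ↔ Commute u w := by
  rw [mem_centralizer_singleton_iff]
  exact ⟨fun h => h.symm, fun h => h.symm⟩

lemma mem_inf_cz {G : Type} [Group G] {K : Subgroup G} {u w : G} :
    w ∈ K ⊓ centralizer ({u} : Set G) ↔ w ∈ K ∧ Commute u w := by
  rw [Subgroup.mem_inf, mem_cz]

section Decomp

variable {G : Type} [Group G]

/-- exponents of the decomposition -/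
lemma exists_exp {a m : ℕ} (h : a.Coprime m) :
    ∃ e f : ℕ, a ∣ f ∧ m ∣ e ∧ (∀ g : G, g ^ (a * m) = 1 → g ^ e * g ^ f = g) ∧
      (∀ u : G, u ^ a = 1 → u ^ e = u) ∧ (∀ w : G, w ^ m = 1 → w ^ f = w) := by
  obtain ⟨e, he1, he2⟩ := Nat.chineseRemainder h 1 0
  obtain ⟨f, hf1, hf2⟩ := Nat.chineseRemainder h 0 1
  have hpow : ∀ (n k l : ℕ) (g : G), g ^ n = 1 → k ≡ l [MOD n] → g ^ k = g ^ l := by
    intro n k l g hg hkl
    exact pow_eq_pow_iff_modEq.2 (hkl.of_dvd (orderOf_dvd_of_pow_eq_one hg))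
  refine ⟨e, f, (Nat.modEq_zero_iff_dvd).1 hf1, (Nat.modEq_zero_iff_dvd).1 he2, ?_, ?_, ?_⟩
  · intro g hg
    rw [← pow_add]
    have h1 : e + f ≡ 1 [MOD a] := he1.add hf1
    have h2 : e + f ≡ 1 [MOD m] := by simpa using he2.add hf2
    have h3 : e + f ≡ 1 [MOD a * m] := (Nat.modEq_and_modEq_iff_modEq_mul h).1 ⟨h1, h2⟩
    simpa using hpow _ _ _ g hg h3
  · intro u hu; simpa using hpow _ _ _ u hu he1
  · intro w hw; simpa using hpow _ _ _ w hw hf2

/-- uniqueness of the decomposition -/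
lemma decomp_unique {a m : ℕ} (h : a.Coprime m) {u u' w w' : G} (hu : u ^ a = 1) (hu' : u' ^ a = 1)
    (hw : w ^ m = 1) (hw' : w' ^ m = 1) (hc : Commute u w) (hc' : Commute u' w')
    (he : u * w = u' * w') : u = u' ∧ w = w' := by
  obtain ⟨e, f, haf, hme, -, h1, h2⟩ := exists_exp (G := G) h
  obtain ⟨k, rfl⟩ := haf
  obtain ⟨l, rfl⟩ := hme
  have key : ∀ x y : G, x ^ a = 1 → y ^ m = 1 → Commute x y → (x * y) ^ (m * l) = x := by
    intro x y hx hy hxy
    rw [hxy.mul_pow, h1 x hx, pow_mul, hy, one_pow, mul_one]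
  have hh : u = u' := by
    rw [← key u w hu hw hc, he, key u' w' hu' hw' hc']
  refine ⟨hh, ?_⟩
  subst hh
  exact mul_left_cancel he

end Decomp

section Count

variable {G : Type} [Group G] [Finite G]

/-- every element is the product of its parts, in every subgroup -/
lemma card_eq_sum {a m : ℕ} (h : a.Coprime m) (hG : ∀ g : G, g ^ (a * m) = 1) (K : Subgroup G) :
    Nat.card K = ∑ᶠ u : {u : G // u ∈ K ∧ u ^ a = 1}, cnt m (K ⊓ centralizer {(u : G)}) := by
  classical
  have hfin : Fintype {u : G // u ∈ K ∧ u ^ a = 1} := Fintype.ofFinite _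
  rw [finsum_eq_sum_of_fintype]
  unfold cnt
  rw [← Nat.card_sigma]
  obtain ⟨e, f, haf, hme, h0, h1, h2⟩ := exists_exp (G := G) h
  obtain ⟨k, hk⟩ := haf
  obtain ⟨l, hl⟩ := hme
  symm
  apply Nat.card_congr
  refine Equiv.ofBijective
    (fun s => (⟨(s.1 : G) * (s.2 : G), K.mul_mem s.1.2.1 (mem_inf_cz.1 s.2.2.1).1⟩ : K)) ⟨?_, ?_⟩
  · rintro ⟨⟨u, hu1, hu2⟩, ⟨w, hw1, hw2⟩⟩ ⟨⟨u', hu1', hu2'⟩, ⟨w', hw1', hw2'⟩⟩ he
    have he' : u * w = u' * w' := congrArg Subtype.val he
    have hc : Commute u w := (mem_inf_cz.1 hw1).2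
    have hc' : Commute u' w' := (mem_inf_cz.1 hw1').2
    obtain ⟨rfl, rfl⟩ := decomp_unique h hu2 hu2' hw2 hw2' hc hc' he'
    rfl
  · rintro ⟨g, hg⟩
    refine ⟨⟨⟨g ^ e, K.pow_mem hg e, ?_⟩, ⟨g ^ f, mem_inf_cz.2 ⟨K.pow_mem hg f, ?_⟩, ?_⟩⟩, ?_⟩
    · rw [← pow_mul, hl, mul_comm, ← mul_assoc, pow_mul, hG, one_pow]
    · exact (Commute.refl g).pow_pow e f
    · rw [← pow_mul, hk, mul_right_comm, pow_mul, hG, one_pow]
    · exact Subtype.ext (h0 g (hG g))

end Count

section IsoSets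

variable {G : Type} [Group G] [Finite G]

/-- a nonempty `K`-invariant set of elements with `x ^ a = 1`, no two of which commute -/
structure IsoSet (a : ℕ) (K : Subgroup G) (X : Set G) : Prop where
  sub : ∀ x ∈ X, x ∈ K
  pel : ∀ x ∈ X, x ^ a = 1
  ne : X.Nonempty
  inv : ∀ k ∈ K, ∀ x ∈ X, k * x * k⁻¹ ∈ X
  iso : ∀ x ∈ X, ∀ y ∈ X, Commute x y → x = y

omit [Finite G] in
lemma commute_conj {k x y : G} : Commute (k * x * k⁻¹) (k * y * k⁻¹) ↔ Commute x y := by
  constructor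
  · intro h
    have h2 : (k * x * k⁻¹) * (k * y * k⁻¹) = (k * y * k⁻¹) * (k * x * k⁻¹) := h
    have h3 : k * (x * y) * k⁻¹ = k * (y * x) * k⁻¹ := by
      calc k * (x * y) * k⁻¹ = (k * x * k⁻¹) * (k * y * k⁻¹) := by group
        _ = (k * y * k⁻¹) * (k * x * k⁻¹) := h2
        _ = k * (y * x) * k⁻¹ := by group
    exact mul_left_cancel (mul_right_cancel h3)
  · intro h
    have h2 : x * y = y * x := h
    show (k * x * k⁻¹) * (k * y * k⁻¹) = (k * y * k⁻¹) * (k * x * k⁻¹)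
    calc (k * x * k⁻¹) * (k * y * k⁻¹) = k * (x * y) * k⁻¹ := by group
      _ = k * (y * x) * k⁻¹ := by rw [h2]
      _ = (k * y * k⁻¹) * (k * x * k⁻¹) := by group

omit [Finite G] in
lemma conj_eq_iff {g x : G} : g * x * g⁻¹ = x ↔ Commute g x := by
  rw [mul_inv_eq_iff_eq_mul]
  exact Iff.rfl

lemma card_mod {p s : ℕ} (hp : p.Prime) {K : Subgroup G} {X : Set G}
    (inv : ∀ k ∈ K, ∀ x ∈ X, k * x * k⁻¹ ∈ X) {u : G} (hu : u ∈ K) (hup : u ^ (p ^ s) = 1) :
    Nat.card X ≡ Nat.card {x : X // Commute u (x : G)} [MOD p] := by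
  have : Fact p.Prime := ⟨hp⟩
  let act : MulAction (zpowers u) X :=
    { smul := fun g x => ⟨(g : G) * x * (g : G)⁻¹, inv g (zpowers_le.2 hu g.2) x x.2⟩
      one_smul := fun x => Subtype.ext (by
        show ((1 : zpowers u) : G) * x * ((1 : zpowers u) : G)⁻¹ = x
        simp)
      mul_smul := fun g h x => Subtype.ext (by
        show ((g * h : zpowers u) : G) * x * ((g * h : zpowers u) : G)⁻¹
          = (g : G) * ((h : G) * x * (h : G)⁻¹) * (g : G)⁻¹
        rw [Subgroup.coe_mul]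
        group) }
  have hpg : IsPGroup p (zpowers u) := by
    rintro ⟨g, hg⟩
    obtain ⟨n, rfl⟩ := mem_zpowers_iff.1 hg
    refine ⟨s, Subtype.ext ?_⟩
    show (u ^ n) ^ (p ^ s) = 1
    rw [← zpow_natCast, ← zpow_mul, mul_comm, zpow_mul, zpow_natCast, hup, one_zpow]
  have h := hpg.card_modEq_card_fixedPoints X
  refine h.trans (modEq_of_eq ?_) 
  apply Nat.card_congr
  refine Equiv.subtypeEquivRight ?_
  intro x
  rw [MulAction.mem_fixedPoints]
  constructor
  · intro hx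
    have := congrArg Subtype.val (hx ⟨u, mem_zpowers u⟩)
    exact conj_eq_iff.1 this
  · rintro hx ⟨g, hg⟩
    obtain ⟨n, rfl⟩ := mem_zpowers_iff.1 hg
    apply Subtype.ext
    exact conj_eq_iff.2 (hx.zpow_left n)

lemma IsoSet.card_one {p s : ℕ} (hp : p.Prime) {K : Subgroup G} {X : Set G}
    (h : IsoSet (p ^ s) K X) : Nat.card X ≡ 1 [MOD p] := by
  obtain ⟨x, hx⟩ := h.ne
  refine (card_mod (s := s) hp h.inv (h.sub x hx) (h.pel x hx)).trans (modEq_of_eq ?_)
  rw [Nat.card_eq_one_iff_unique]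
  refine ⟨⟨?_⟩, ⟨⟨⟨x, hx⟩, Commute.refl x⟩⟩⟩
  rintro ⟨⟨y, hy⟩, hy2⟩ ⟨⟨z, hz⟩, hz2⟩
  have h1 := h.iso x hx y hy hy2
  have h2 := h.iso x hx z hz hz2
  subst h1
  subst h2
  rfl

/-- every `p`-element centralizes an element of `X` -/
lemma IsoSet.exists_commute {p s : ℕ} (hp : p.Prime) {K : Subgroup G} {X : Set G}
    (h : IsoSet (p ^ s) K X) {u : G} (hu : u ∈ K) (hup : u ^ (p ^ s) = 1) :
    ∃ x ∈ X, Commute u x := by
  by_contra hno
  push Not at hno
  have h1 := (card_mod (s := s) hp h.inv hu hup)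
  have h2 : Nat.card {x : X // Commute u (x : G)} = 0 := by
    rw [Nat.card_eq_zero]
    left
    exact ⟨fun y => hno y.1 y.1.2 y.2⟩
  rw [h2] at h1
  have h3 : 1 ≡ 0 [MOD p] := (h.card_one hp).symm.trans h1
  have h4 : p ∣ 1 := (Nat.modEq_zero_iff_dvd).1 h3
  exact hp.one_lt.ne' (Nat.dvd_one.1 h4)

/-- `X` is one class -/
lemma IsoSet.conj {p s : ℕ} (hp : p.Prime) {K : Subgroup G} {X : Set G}
    (h : IsoSet (p ^ s) K X) {x y : G} (hx : x ∈ X) (hy : y ∈ X) : ∃ k ∈ K, k * x * k⁻¹ = y := by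
  have h1 : IsoSet (p ^ s) K {z | ∃ k ∈ K, k * x * k⁻¹ = z} :=
    { sub := by
        rintro z ⟨k, hk, rfl⟩
        exact h.sub _ (h.inv k hk x hx)
      pel := by
        rintro z ⟨k, hk, rfl⟩
        exact h.pel _ (h.inv k hk x hx)
      ne := ⟨x, 1, K.one_mem, by simp⟩
      inv := by
        rintro l hl z ⟨k, hk, rfl⟩
        exact ⟨l * k, K.mul_mem hl hk, by group⟩
      iso := by
        rintro z ⟨k, hk, rfl⟩ w ⟨l, hl, rfl⟩ hzw
        exact h.iso _ (h.inv k hk x hx) _ (h.inv l hl x hx) hzw }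
  obtain ⟨z, ⟨k, hk, rfl⟩, hz⟩ := h1.exists_commute hp (h.sub y hy) (h.pel y hy)
  exact ⟨k, hk, (h.iso _ hy _ (h.inv k hk x hx) hz).symm⟩

/-- restriction to the centralizer of a `p`-element -/
lemma IsoSet.restrict {p s : ℕ} (hp : p.Prime) {K : Subgroup G} {X : Set G}
    (h : IsoSet (p ^ s) K X) {u : G} (hu : u ∈ K) (hup : u ^ (p ^ s) = 1) :
    IsoSet (p ^ s) (K ⊓ centralizer ({u} : Set G)) {x | x ∈ X ∧ Commute u x} :=
  { sub := fun x hx => mem_inf_cz.2 ⟨h.sub x hx.1, hx.2⟩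
    pel := fun x hx => h.pel x hx.1
    ne := by
      obtain ⟨x, hx, hc⟩ := h.exists_commute hp hu hup
      exact ⟨x, hx, hc⟩
    inv := by
      rintro k hk x ⟨hx, hc⟩
      obtain ⟨hk1, hk2⟩ := mem_inf_cz.1 hk
      refine ⟨h.inv k hk1 x hx, ?_⟩
      exact (hk2.mul_right hc).mul_right hk2.inv_right
    iso := fun x hx y hy hxy => h.iso x hx.1 y hy.1 hxy }

/-- orbit counting -/
lemma IsoSet.card_sum {p s : ℕ} (hp : p.Prime) {K : Subgroup G} {X : Set G}
    (h : IsoSet (p ^ s) K X) [Fintype X] :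
    ∑ x : X, Nat.card (K ⊓ centralizer ({(x : G)} : Set G) : Subgroup G) = Nat.card K := by
  obtain ⟨x0, hx0⟩ := h.ne
  choose k hk hkx using fun x : X => h.conj hp hx0 x.2
  rw [← Nat.card_sigma]
  apply Nat.card_congr
  refine Equiv.ofBijective (fun z => (⟨(z.2 : G) * k z.1,
    K.mul_mem (mem_inf_cz.1 z.2.2).1 (hk z.1)⟩ : K)) ⟨?_, ?_⟩
  · rintro ⟨x, ⟨c, hc⟩⟩ ⟨y, ⟨d, hd⟩⟩ he
    have he' : c * k x = d * k y := congrArg Subtype.val he
    obtain ⟨hc1, hc2⟩ := mem_inf_cz.1 hc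
    obtain ⟨hd1, hd2⟩ := mem_inf_cz.1 hd
    have hx : (c * k x) * x0 * (c * k x)⁻¹ = x := by
      rw [← conj_eq_iff.2 hc2.symm, ← hkx x]
      group
    have hy : (d * k y) * x0 * (d * k y)⁻¹ = y := by
      rw [← conj_eq_iff.2 hd2.symm, ← hkx y]
      group
    have hxy : x = y := Subtype.ext (by rw [← hx, he', hy])
    subst hxy
    have : c = d := mul_right_cancel he'
    subst this
    rfl
  · rintro ⟨g, hg⟩
    have hgx : g * x0 * g⁻¹ ∈ X := h.inv g hg x0 hx0
    have hkk := hkx ⟨_, hgx⟩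
    refine ⟨⟨⟨_, hgx⟩, ⟨g * (k ⟨_, hgx⟩)⁻¹, mem_inf_cz.2 ⟨K.mul_mem hg (K.inv_mem (hk _)), ?_⟩⟩⟩,
      Subtype.ext ?_⟩
    · apply Commute.symm
      rw [← conj_eq_iff]
      show g * (k ⟨_, hgx⟩)⁻¹ * (g * x0 * g⁻¹) * (g * (k ⟨_, hgx⟩)⁻¹)⁻¹ = g * x0 * g⁻¹
      have h2 : (k ⟨_, hgx⟩)⁻¹ * (g * x0 * g⁻¹) * (k ⟨_, hgx⟩) = x0 := by
        have hkk' : g * x0 * g⁻¹ = k ⟨_, hgx⟩ * x0 * (k ⟨_, hgx⟩)⁻¹ := hkk.symm
        calc (k ⟨_, hgx⟩)⁻¹ * (g * x0 * g⁻¹) * (k ⟨_, hgx⟩)
            = (k ⟨_, hgx⟩)⁻¹ * (k ⟨_, hgx⟩ * x0 * (k ⟨_, hgx⟩)⁻¹) * (k ⟨_, hgx⟩) := by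
              rw [← hkk']
          _ = x0 := by group
      calc g * (k ⟨_, hgx⟩)⁻¹ * (g * x0 * g⁻¹) * (g * (k ⟨_, hgx⟩)⁻¹)⁻¹
          = g * ((k ⟨_, hgx⟩)⁻¹ * (g * x0 * g⁻¹) * (k ⟨_, hgx⟩)) * g⁻¹ := by group
        _ = g * x0 * g⁻¹ := by rw [h2]
    · show g * (k ⟨_, hgx⟩)⁻¹ * k ⟨_, hgx⟩ = g
      group

end IsoSets

section Main

variable {G : Type} [Group G] [Finite G]

open scoped Classical in
/-- The number of `p'`-elements of `K` is the number of pairs `(x, w)`, `x ∈ X`, `w` a `p'`-element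
of `C_K(x)`. -/
theorem main_count [Fintype G] {p s m : ℕ} (hp : p.Prime) (hcop : (p ^ s).Coprime m)
    (hG : ∀ g : G, g ^ (p ^ s * m) = 1) : ∀ n : ℕ, ∀ K : Subgroup G, Nat.card K ≤ n →
      ∀ X : Set G, IsoSet (p ^ s) K X →
        cnt m K = ∑ x ∈ univ.filter (· ∈ X), cnt m (K ⊓ centralizer {x}) := by
  have hsum : ∀ K : Subgroup G, Nat.card K =
      ∑ u ∈ univ.filter (fun u : G => u ∈ K ∧ u ^ (p ^ s) = 1), cnt m (K ⊓ centralizer {u}) := by
    intro K
    rw [card_eq_sum hcop hG K, finsum_eq_sum_of_fintype]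
    exact (Finset.sum_subtype (univ.filter (fun u : G => u ∈ K ∧ u ^ (p ^ s) = 1))
      (by simp) (fun u => cnt m (K ⊓ centralizer {u}))).symm
  intro n
  induction n with
  | zero =>
    intro K hK
    exact absurd (Nat.card_pos (α := K)) (by omega)
  | succ n ih =>
    intro K hK X hX
    set A : Finset G := univ.filter (fun u : G => u ∈ K ∧ u ^ (p ^ s) = 1) with hA
    have hXA : ∀ x ∈ X, x ∈ A := fun x hx => by
      rw [hA, mem_filter]; exact ⟨mem_univ _, hX.sub x hx, hX.pel x hx⟩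
    -- the orbit count
    have horb : ∑ x ∈ univ.filter (· ∈ X),
        Nat.card (K ⊓ centralizer ({(x : G)} : Set G) : Subgroup G) = Nat.card K := by
      rw [← hX.card_sum hp]
      exact Finset.sum_subtype (univ.filter (· ∈ X)) (by simp)
        (fun x => Nat.card (K ⊓ centralizer ({(x : G)} : Set G) : Subgroup G))
    -- the double sum
    have hdouble : ∑ u ∈ A, ∑ x ∈ univ.filter (fun x => x ∈ X ∧ Commute u x),
        cnt m (K ⊓ centralizer {u} ⊓ centralizer {x}) = Nat.card K := by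
      rw [← horb]
      have h1 : ∀ x ∈ univ.filter (· ∈ X),
          Nat.card (K ⊓ centralizer ({(x : G)} : Set G) : Subgroup G)
            = ∑ u ∈ A.filter (fun u => Commute u x),
                cnt m (K ⊓ centralizer {u} ⊓ centralizer {x}) := by
        intro x hx
        rw [hsum (K ⊓ centralizer {x})]
        apply Finset.sum_congr_of_eq_on_inter
        · intro u hu hu'
          exfalso
          apply hu'
          rw [mem_filter] at hu
          rw [mem_filter, hA, mem_filter]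
          obtain ⟨-, hu1, hu2⟩ := hu
          obtain ⟨hu3, hu4⟩ := mem_inf_cz.1 hu1
          exact ⟨⟨mem_univ _, hu3, hu2⟩, hu4.symm⟩
        · intro u hu hu'
          exfalso
          apply hu'
          rw [mem_filter, hA, mem_filter] at hu
          rw [mem_filter]
          exact ⟨mem_univ _, mem_inf_cz.2 ⟨hu.1.2.1, hu.2.symm⟩, hu.1.2.2⟩
        · intro u hu hu'
          rw [inf_right_comm]
      rw [Finset.sum_congr rfl h1]
      rw [Finset.sum_comm' (t' := univ.filter (· ∈ X)) (s' := fun x => A.filter (fun u => Commute u x))]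
      intro u x
      simp only [mem_filter, mem_univ, true_and]
      tauto
    -- the difference
    set f : G → ℤ := fun u => (cnt m (K ⊓ centralizer {u}) : ℤ)
      - ∑ x ∈ univ.filter (fun x => x ∈ X ∧ Commute u x),
          (cnt m (K ⊓ centralizer {u} ⊓ centralizer {x}) : ℤ) with hf
    have hf0 : ∑ u ∈ A, f u = 0 := by
      rw [hf, Finset.sum_sub_distrib, sub_eq_zero]
      have e1 : ∑ u ∈ A, (cnt m (K ⊓ centralizer {u}) : ℤ) = (Nat.card K : ℤ) := by
        rw [hsum K]; push_cast; rfl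
      have e2 : ∑ u ∈ A, ∑ x ∈ univ.filter (fun x => x ∈ X ∧ Commute u x),
          (cnt m (K ⊓ centralizer {u} ⊓ centralizer {x}) : ℤ) = (Nat.card K : ℤ) := by
        rw [← hdouble]; push_cast; rfl
      rw [e1, e2]
    have hfu : ∀ u ∈ A, f u = if K ≤ centralizer {u} then f 1 else 0 := by
      intro u hu
      rw [hA, mem_filter] at hu
      obtain ⟨-, huK, hup⟩ := hu
      split_ifs with hc
      · rw [hf]
        have h1 : K ⊓ centralizer ({u} : Set G) = K ⊓ centralizer ({1} : Set G) := by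
          ext g
          rw [mem_inf_cz, mem_inf_cz]
          exact ⟨fun h => ⟨h.1, Commute.one_left g⟩, fun h => ⟨h.1, mem_cz.1 (hc h.1)⟩⟩
        have h2 : (univ.filter (fun x => x ∈ X ∧ Commute u x) : Finset G)
            = univ.filter (fun x => x ∈ X ∧ Commute 1 x) := by
          ext x
          simp only [mem_filter, mem_univ, true_and]
          exact ⟨fun h => ⟨h.1, Commute.one_left x⟩,
            fun h => ⟨h.1, mem_cz.1 (hc (hX.sub x h.1))⟩⟩
        show _ - _ = _ - _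
        rw [h1, h2]
      · have hlt : Nat.card (K ⊓ centralizer ({u} : Set G) : Subgroup G) < Nat.card K := by
          rcases lt_or_eq_of_le (Subgroup.card_le_of_le (inf_le_left :
            K ⊓ centralizer ({u} : Set G) ≤ K)) with h | h
          · exact h
          · exfalso
            apply hc
            have := Subgroup.eq_of_le_of_card_ge (inf_le_left :
              K ⊓ centralizer ({u} : Set G) ≤ K) h.ge
            rw [← this]
            exact inf_le_right
        have h1 := ih (K ⊓ centralizer {u}) (by omega) _ (hX.restrict hp huK hup)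
        show _ - _ = _
        rw [sub_eq_zero]
        rw [h1]
        push_cast
        refine Finset.sum_congr ?_ (fun _ _ => rfl)
        ext x
        simp
    rw [Finset.sum_congr rfl hfu, Finset.sum_ite, Finset.sum_const_zero, add_zero,
      Finset.sum_const, nsmul_eq_mul, mul_eq_zero] at hf0
    have hpos : ((A.filter (fun u => K ≤ centralizer {u})).card : ℤ) ≠ 0 := by
      have : 0 < (A.filter (fun u => K ≤ centralizer {u})).card := by
        rw [Finset.card_pos]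
        refine ⟨1, ?_⟩
        rw [mem_filter, hA, mem_filter]
        exact ⟨⟨mem_univ _, K.one_mem, one_pow _⟩, fun g _ => mem_cz.2 (Commute.one_left g)⟩
      exact_mod_cast this.ne'
    have h1 := hf0.resolve_left hpos
    have e1 : K ⊓ centralizer ({1} : Set G) = K := by
      ext g
      rw [mem_inf_cz]
      exact ⟨fun h => h.1, fun h => ⟨h, Commute.one_left g⟩⟩
    have e2 : (univ.filter (fun x => x ∈ X ∧ Commute 1 x) : Finset G) = univ.filter (· ∈ X) := by
      ext x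
      simp only [mem_filter, mem_univ, true_and]
      exact ⟨fun h => h.1, fun h => ⟨h, Commute.one_left x⟩⟩
    have h2 : (cnt m K : ℤ) - ∑ x ∈ univ.filter (· ∈ X), (cnt m (K ⊓ centralizer {x}) : ℤ) = 0 := by
      rw [← h1]
      show _ = _ - _
      rw [e1, e2]
    have h3 : (cnt m K : ℤ) = ((∑ x ∈ univ.filter (· ∈ X), cnt m (K ⊓ centralizer {x}) : ℕ) : ℤ) := by
      push_cast
      linarith
    exact_mod_cast h3

omit [Finite G] in
/-- a `p'`-element -/
lemma pow_of_coprime {p s m : ℕ} (hp : p.Prime) {g : G} (hG : g ^ (p ^ s * m) = 1)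
    (hg : ¬ p ∣ orderOf g) : g ^ m = 1 := by
  apply orderOf_dvd_iff_pow_eq_one.1
  have h1 : orderOf g ∣ p ^ s * m := orderOf_dvd_of_pow_eq_one hG
  have h2 : (orderOf g).Coprime (p ^ s) := by
    apply Nat.Coprime.pow_right
    exact ((Nat.Prime.coprime_iff_not_dvd hp).2 hg).symm
  exact h2.dvd_of_dvd_mul_left h1

/-- The main lemma: a finite group has no two conjugacy classes of isolated elements, of orders powers of two
primes `p ≠ q`, such that every pair of representatives generates the group, if its centre is trivial. -/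
theorem half [Fintype G] {p s m q t l : ℕ} (hp : p.Prime) (hq : q.Prime)
    (hcop : (p ^ s).Coprime m) (hG : ∀ g : G, g ^ (p ^ s * m) = 1)
    (hcop' : (q ^ t).Coprime l) (hG' : ∀ g : G, g ^ (q ^ t * l) = 1)
    {X Y : Set G} (hX : IsoSet (p ^ s) ⊤ X) (hY : IsoSet (q ^ t) ⊤ Y) (h1 : (1 : G) ∉ Y)
    (hgen : ∀ x ∈ X, ∀ y ∈ Y, ∀ g : G, Commute g x → Commute g y → g = 1) :
    cnt l (⊤ : Subgroup G) < cnt m (⊤ : Subgroup G) := by
  classical
  rw [main_count hq hcop' hG' _ ⊤ le_rfl Y hY]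
  -- the centralizers of elements of `Y` have order prime to `p`
  have hcent : ∀ y ∈ Y, ∀ g : G, Commute y g → g ^ m = 1 := by
    intro y hy g hyg
    apply pow_of_coprime (s := s) hp (hG g)
    rintro ⟨k, hk⟩
    have hk0 : k ≠ 0 := by
      rintro rfl
      have := orderOf_pos g
      omega
    have hu : (g ^ k) ^ p = 1 := by
      rw [← pow_mul, mul_comm, ← hk, pow_orderOf_eq_one]
    have hu1 : g ^ k ≠ 1 := by
      intro h
      have h2 := Nat.le_of_dvd (Nat.pos_of_ne_zero hk0) (orderOf_dvd_of_pow_eq_one h)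
      have h3 := hp.two_le
      nlinarith [Nat.pos_of_ne_zero hk0]
    have hup : (g ^ k) ^ (p ^ s) = 1 := by
      have h2 : orderOf (g ^ k) ∣ p := orderOf_dvd_of_pow_eq_one hu
      rcases (Nat.dvd_prime hp).1 h2 with h3 | h3
      · exact absurd (orderOf_eq_one_iff.1 h3) hu1
      · have h4 : orderOf (g ^ k) ∣ p ^ s * m := orderOf_dvd_of_pow_eq_one (hG _)
        rw [h3] at h4
        rcases Nat.eq_zero_or_pos s with h5 | h5
        · subst h5
          exfalso
          -- then X consists of `1` only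
          obtain ⟨x, hx⟩ := hX.ne
          have hx1 : x = 1 := by simpa using hX.pel x hx
          subst hx1
          exact hu1 (hgen 1 hx y hy (g ^ k) (Commute.one_right _) (hyg.symm.pow_left k))
        · obtain ⟨s', rfl⟩ := Nat.exists_eq_succ_of_ne_zero h5.ne'
          rw [pow_succ', pow_mul, hu, one_pow]
    obtain ⟨x, hx, hc⟩ := hX.exists_commute hp (mem_top _) hup
    exact hu1 (hgen x hx y hy (g ^ k) hc (hyg.symm.pow_left k))
  have e1 : ∑ y ∈ univ.filter (· ∈ Y), cnt l (⊤ ⊓ centralizer ({y} : Set G))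
      = Nat.card (Σ y : Y, {w : G // w ∈ (⊤ ⊓ centralizer ({(y : G)} : Set G) : Subgroup G) ∧ w ^ l = 1}) := by
    rw [Nat.card_sigma]
    exact Finset.sum_subtype (univ.filter (· ∈ Y)) (by simp)
      (fun y => cnt l (⊤ ⊓ centralizer ({y} : Set G)))
  rw [e1]
  unfold cnt
  let F : (Σ y : Y, {w : G // w ∈ (⊤ ⊓ centralizer ({(y : G)} : Set G) : Subgroup G) ∧ w ^ l = 1}) →
      {w : G // w ∈ (⊤ : Subgroup G) ∧ w ^ m = 1} := fun z =>
    ⟨(z.1 : G) * (z.2 : G), mem_top _, hcent z.1 z.1.2 _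
      ((Commute.refl _).mul_right (mem_inf_cz.1 z.2.2.1).2)⟩
  have hFinj : Function.Injective F := by
    rintro ⟨⟨y, hy⟩, ⟨w, hw1, hw2⟩⟩ ⟨⟨y', hy'⟩, ⟨w', hw1', hw2'⟩⟩ he
    have he' : y * w = y' * w' := congrArg Subtype.val he
    obtain ⟨rfl, rfl⟩ := decomp_unique hcop' (hY.pel y hy) (hY.pel y' hy') hw2 hw2'
      (mem_inf_cz.1 hw1).2 (mem_inf_cz.1 hw1').2 he'
    rfl
  have hone : (⟨1, mem_top _, one_pow _⟩ : {w : G // w ∈ (⊤ : Subgroup G) ∧ w ^ m = 1})
      ∉ Set.range F := by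
    rintro ⟨⟨⟨y, hy⟩, ⟨w, hw1, hw2⟩⟩, he⟩
    have he' : y * w = 1 * 1 := by
      rw [mul_one]
      exact congrArg Subtype.val he
    obtain ⟨h2, -⟩ := decomp_unique hcop' (hY.pel y hy) (one_pow _) hw2 (one_pow _)
      (mem_inf_cz.1 hw1).2 (Commute.refl 1) he'
    exact h1 (h2 ▸ hy)
  have f1 : Fintype (Σ y : Y, {w : G // w ∈ (⊤ ⊓ centralizer ({(y : G)} : Set G) : Subgroup G) ∧
      w ^ l = 1}) := Fintype.ofFinite _
  have f2 : Fintype {w : G // w ∈ (⊤ : Subgroup G) ∧ w ^ m = 1} := Fintype.ofFinite _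
  rw [Nat.card_eq_fintype_card, Nat.card_eq_fintype_card]
  exact Fintype.card_lt_of_injective_of_notMem F hFinj hone

omit [Finite G] in
/-- the class of an isolated element -/
lemma isoSet_class {p s : ℕ} {x : G} (hx : x ^ (p ^ s) = 1)
    (hix : ∀ g : G, Commute x (g * x * g⁻¹) → g * x * g⁻¹ = x) :
    IsoSet (p ^ s) (⊤ : Subgroup G) {z | ∃ g : G, g * x * g⁻¹ = z} :=
  { sub := fun z _ => mem_top z
    pel := by
      rintro z ⟨g, rfl⟩
      rw [conj_pow, hx]
      group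
    ne := ⟨x, 1, by simp⟩
    inv := by
      rintro k - z ⟨g, rfl⟩
      exact ⟨k * g, by group⟩
    iso := by
      rintro z ⟨g, rfl⟩ w ⟨h, rfl⟩ hzw
      have h1 : Commute x ((g⁻¹ * h) * x * (g⁻¹ * h)⁻¹) := by
        rw [← commute_conj (k := g)]
        have : g * (g⁻¹ * h * x * (g⁻¹ * h)⁻¹) * g⁻¹ = h * x * h⁻¹ := by group
        rw [this]
        exact hzw
      have h2 := hix _ h1
      calc g * x * g⁻¹ = g * (g⁻¹ * h * x * (g⁻¹ * h)⁻¹) * g⁻¹ := by rw [h2]
        _ = h * x * h⁻¹ := by group }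

/-- **No finite nonabelian simple group has isolated elements of two different prime orders such that
every pair of conjugates generates it.** -/
theorem no_pair (hs : IsSimpleGroup G) (hne : ∃ a b : G, a * b ≠ b * a) {p q : ℕ} (hp : p.Prime)
    (hq : q.Prime) {x y : G} (hx : orderOf x = p) (hy : orderOf y = q)
    (hix : ∀ g : G, Commute x (g * x * g⁻¹) → g * x * g⁻¹ = x)
    (hiy : ∀ g : G, Commute y (g * y * g⁻¹) → g * y * g⁻¹ = y)
    (hgen : ∀ g h : G, Subgroup.closure {g * x * g⁻¹, h * y * h⁻¹} = ⊤) : False := by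
  classical
  have hfin : Fintype G := Fintype.ofFinite G
  have hcard : Nat.card G ≠ 0 := Nat.card_pos.ne'
  obtain ⟨s, m, hpm, hsm⟩ := Nat.exists_eq_pow_mul_and_not_dvd hcard p hp.ne_one
  obtain ⟨t, l, hql, htl⟩ := Nat.exists_eq_pow_mul_and_not_dvd hcard q hq.ne_one
  have hG : ∀ g : G, g ^ (p ^ s * m) = 1 := fun g => by rw [← hsm]; exact pow_card_eq_one'
  have hG' : ∀ g : G, g ^ (q ^ t * l) = 1 := fun g => by rw [← htl]; exact pow_card_eq_one'
  have hcop : (p ^ s).Coprime m := Nat.Coprime.pow_left s ((Nat.Prime.coprime_iff_not_dvd hp).2 hpm)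
  have hcop' : (q ^ t).Coprime l :=
    Nat.Coprime.pow_left t ((Nat.Prime.coprime_iff_not_dvd hq).2 hql)
  have hxs : x ^ (p ^ s) = 1 := by
    apply orderOf_dvd_iff_pow_eq_one.1
    rw [hx]
    rcases Nat.eq_zero_or_pos s with h | h
    · subst h
      exfalso
      apply hpm
      rw [pow_zero, one_mul] at hsm
      rw [← hsm, ← hx]
      exact orderOf_dvd_natCard x
    · exact dvd_pow_self p h.ne'
  have hyt : y ^ (q ^ t) = 1 := by
    apply orderOf_dvd_iff_pow_eq_one.1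
    rw [hy]
    rcases Nat.eq_zero_or_pos t with h | h
    · subst h
      exfalso
      apply hql
      rw [pow_zero, one_mul] at htl
      rw [← htl, ← hy]
      exact orderOf_dvd_natCard y
    · exact dvd_pow_self q h.ne'
  have hX := isoSet_class (p := p) (s := s) hxs hix
  have hY := isoSet_class (p := q) (s := t) hyt hiy
  have hcenter : Subgroup.center G = ⊥ := by
    rcases hs.eq_bot_or_eq_top_of_normal (Subgroup.center G) inferInstance with h | h
    · exact h
    · exfalso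
      obtain ⟨a, b, hab⟩ := hne
      have ha : a ∈ Subgroup.center G := h ▸ mem_top a
      exact hab ((Subgroup.mem_center_iff.1 ha b).symm)
  have hcc : ∀ x' ∈ {z | ∃ g : G, g * x * g⁻¹ = z}, ∀ y' ∈ {z | ∃ g : G, g * y * g⁻¹ = z},
      ∀ g : G, Commute g x' → Commute g y' → g = 1 := by
    rintro x' ⟨a, rfl⟩ y' ⟨b, rfl⟩ g h1 h2
    have h3 : Subgroup.closure {a * x * a⁻¹, b * y * b⁻¹} ≤ centralizer ({g} : Set G) := by
      rw [Subgroup.closure_le]
      rintro z hz
      rcases hz with rfl | hz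
      · exact mem_cz.2 h1
      · rw [Set.mem_singleton_iff] at hz
        subst hz
        exact mem_cz.2 h2
    rw [hgen a b] at h3
    have h4 : g ∈ Subgroup.center G := by
      rw [Subgroup.mem_center_iff]
      intro k
      exact (mem_cz.1 (h3 (mem_top k))).symm
    rw [hcenter, Subgroup.mem_bot] at h4
    exact h4
  have hx1 : (1 : G) ∉ {z | ∃ g : G, g * x * g⁻¹ = z} := by
    rintro ⟨g, hg⟩
    have : x = 1 := by
      have h2 : g * x * g⁻¹ = g * 1 * g⁻¹ := by rw [hg]; group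
      exact mul_left_cancel (mul_right_cancel h2)
    rw [this, orderOf_one] at hx
    exact hp.one_lt.ne hx
  have hy1 : (1 : G) ∉ {z | ∃ g : G, g * y * g⁻¹ = z} := by
    rintro ⟨g, hg⟩
    have : y = 1 := by
      have h2 : g * y * g⁻¹ = g * 1 * g⁻¹ := by rw [hg]; group
      exact mul_left_cancel (mul_right_cancel h2)
    rw [this, orderOf_one] at hy
    exact hq.one_lt.ne hy
  have a1 := half hp hq hcop hG hcop' hG' hX hY hy1 hcc
  have a2 := half hq hp hcop' hG' hcop hG hY hX hx1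
    (fun y' hy' x' hx' g h1 h2 => hcc x' hx' y' hy' g h2 h1)
  omega

end Main

end Pool.Agent.Iso59
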